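import Pool.Agent.Run7.h876.SW.Abs

/-!
# The characteristic function of the sums with arbitrary weights
-/

set_option autoImplicit false
set_option linter.unusedSectionVars false

namespace Run7.h876.SW

open NumberField IsDedekindDomain Finset Filter Topology MeasureTheory
open Run7.h876.MM (nv kv two_le_nv nv_pos avg norm_avg_le SZ mem_SZ card_SZ instFieldKv instFintypeKv instDecKv)
open Run7.h876.EN Run7.h876.PW Run7.h876.MN
open Run7.h9.BS (cv cv_pos prop Phi emp emp_prob emp_charFun emp_Iic)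

section
variable {K : Type} [Field K] [NumberField K] {J : Type} [Fintype J] [DecidableEq J] {I : Type} [Fintype I] [DecidableEq I]
variable (𝓛 : Loc K J I) (c : I → HeightOneSpectrum (𝓞 K) → ℝ)

/-- the centred and scaled local function -/
noncomputable def XX (s : ℝ) (v : HeightOneSpectrum (𝓞 K)) (t : J → kv v) : ℝ := s * (gg 𝓛 c v t - av Finset.univ (gg 𝓛 c v))

theorem XX_mean (s : ℝ) (v : HeightOneSpectrum (𝓞 K)) : av Finset.univ (XX 𝓛 c s v) = 0 := by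
  have e : XX 𝓛 c s v = fun t => s * (fun t => gg 𝓛 c v t + -av Finset.univ (gg 𝓛 c v)) t := by
    funext t
    unfold XX
    ring
  rw [e, av_mul, av_add, av_const]
  have e2 : av Finset.univ (fun t => gg 𝓛 c v t) = av Finset.univ (gg 𝓛 c v) := rfl
  rw [e2]
  ring

theorem XX_le (s : ℝ) (v : HeightOneSpectrum (𝓞 K)) (t : J → kv v) :
    |XX 𝓛 c s v t| ≤ |s| * (2 * (Fintype.card I * 𝓛.M * Real.sqrt (rho c v))) := by
  unfold XX
  rw [abs_mul]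
  refine mul_le_mul_of_nonneg_left ?_ (abs_nonneg _)
  refine (abs_sub _ _).trans ?_
  have h1 := gg_le 𝓛 c v t
  have h2 : |av Finset.univ (gg 𝓛 c v)| ≤ Fintype.card I * 𝓛.M * Real.sqrt (rho c v) := by
    rw [abs_le]
    constructor
    · rw [← av_const (Ω := J → kv v) (-(Fintype.card I * 𝓛.M * Real.sqrt (rho c v)))]
      exact av_mono _ fun t => (abs_le.1 (gg_le 𝓛 c v t)).1
    · exact av_le_const fun t => (abs_le.1 (gg_le 𝓛 c v t)).2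
  linarith

theorem XX_sq (s : ℝ) (v : HeightOneSpectrum (𝓞 K)) : av Finset.univ (fun t => XX 𝓛 c s v t ^ 2) =
    s ^ 2 * (av Finset.univ (fun t => gg 𝓛 c v t ^ 2) - av Finset.univ (gg 𝓛 c v) ^ 2) := by
  obtain ⟨m, hm⟩ : ∃ m, m = av Finset.univ (gg 𝓛 c v) := ⟨_, rfl⟩
  have e : (fun t => XX 𝓛 c s v t ^ 2) = fun t => s ^ 2 * (fun t => gg 𝓛 c v t ^ 2 + (fun t => (-2 * m) * gg 𝓛 c v t + m ^ 2) t) t := by
    funext t
    unfold XX
    rw [← hm]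
    ring
  rw [e, av_mul, av_add, av_add, av_mul, av_const]
  have e2 : av Finset.univ (fun t => gg 𝓛 c v t) = m := hm.symm
  rw [e2]
  ring

theorem sum_XX (s : ℝ) (Z : ℕ) (t : J → 𝓞 K) :
    s * SS 𝓛 c Z t = SB (XX 𝓛 c s) (SZ K Z) t + s * ∑ v ∈ SZ K Z, av Finset.univ (gg 𝓛 c v) := by
  unfold SS SB XX
  rw [← Finset.mul_sum, Finset.sum_sub_distrib]
  ring

/-- the variance of the centred variables -/
theorem var_close (s : ℝ) (Z : ℕ) :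
    |∑ v ∈ SZ K Z, av Finset.univ (fun t => XX 𝓛 c s v t ^ 2) - s ^ 2 * VV 𝓛 c Z| ≤
      s ^ 2 * (((Fintype.card I : ℝ) ^ 2 * 𝓛.E + (Fintype.card I * 𝓛.E) ^ 2) * ∑ v ∈ SZ K Z, rho c v / Real.sqrt (nv v)) := by
  have hE := 𝓛.E_nonneg
  unfold VV
  rw [Finset.mul_sum, ← Finset.sum_sub_distrib, Finset.mul_sum, Finset.mul_sum]
  refine (Finset.abs_sum_le_sum_abs _ _).trans (Finset.sum_le_sum fun v _ => ?_)
  rw [XX_sq, ← mul_sub, abs_mul, abs_of_nonneg (sq_nonneg s)]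
  refine mul_le_mul_of_nonneg_left ?_ (sq_nonneg s)
  have h1 := av_sq_le 𝓛 c v
  have h2 := av_gg_le 𝓛 c v
  have hr := rho_nonneg c v
  have hq : (1 : ℝ) ≤ nv v := by exact_mod_cast (by have := two_le_nv v; omega : 1 ≤ nv v)
  have hs1 : (1 : ℝ) ≤ Real.sqrt (nv v) := Real.one_le_sqrt.2 hq
  have hs2 : Real.sqrt (nv v) * Real.sqrt (nv v) = nv v := Real.mul_self_sqrt (by linarith)
  have hs3 : Real.sqrt (nv v) ≤ (nv v : ℝ) ^ 2 := by nlinarith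
  have h3 : av Finset.univ (gg 𝓛 c v) ^ 2 ≤ (Fintype.card I * 𝓛.E) ^ 2 * (rho c v / Real.sqrt (nv v)) := by
    rw [← sq_abs]
    refine (pow_le_pow_left₀ (abs_nonneg _) h2 2).trans ?_
    rw [mul_pow, div_pow, Real.sq_sqrt hr]
    refine mul_le_mul_of_nonneg_left ?_ (by positivity)
    exact div_le_div_of_nonneg_left hr (by linarith) hs3
  obtain ⟨x, hx⟩ : ∃ x, x = av Finset.univ (fun t => gg 𝓛 c v t ^ 2) := ⟨_, rfl⟩
  obtain ⟨y, hy⟩ : ∃ y, y = ∑ i, 𝓛.D i * c i v ^ 2 := ⟨_, rfl⟩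
  obtain ⟨z, hz⟩ : ∃ z, z = av Finset.univ (gg 𝓛 c v) ^ 2 := ⟨_, rfl⟩
  rw [← hx, ← hy] at h1
  rw [← hz] at h3
  rw [← hx, ← hy, ← hz]
  have hz0 : 0 ≤ z := by rw [hz]; exact sq_nonneg _
  have e : x - z - y = (x - y) - z := by ring
  rw [e]
  refine (abs_sub _ _).trans ?_
  rw [abs_of_nonneg hz0, add_mul]
  exact add_le_add h1 h3

variable {ι : Type} [Fintype ι] [DecidableEq ι] (ω : Module.Basis ι ℤ (𝓞 K)) {G : Set (J → 𝓞 K)} {Cb : ℝ}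

/-- **The characteristic function, uniformly in the weights.** -/
theorem char_uniform (hCb : 0 ≤ Cb) (hG : Thin ω G Cb) (u : ℝ) {ε : ℝ} (hε : 0 < ε) :
    ∃ C : ℕ, ∃ V₀ : ℝ, ∀ (Z : ℕ) (c : I → HeightOneSpectrum (𝓞 K) → ℝ), (∀ i v, |c i v| ≤ 1) → V₀ ≤ VV 𝓛 c Z →
      ∀ H : J → ℕ, (∀ j, Z ^ C ≤ H j) →
      ‖mean ω H G (fun t => Complex.exp (Complex.I * ((u / Real.sqrt (VV 𝓛 c Z) * SS 𝓛 c Z t : ℝ) : ℂ))) -
        Complex.exp (-((u : ℂ) ^ 2) / 2)‖ ≤ ε := by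
  have hd := 𝓛.d_pos
  have hM := 𝓛.M_nonneg
  have hE := 𝓛.E_nonneg
  obtain ⟨n, hn⟩ : ∃ n : ℝ, n = Fintype.card I := ⟨_, rfl⟩
  have hn0 : 0 ≤ n := by rw [hn]; positivity
  obtain ⟨A, hA⟩ : ∃ A, A = |u| * (2 * (n * 𝓛.M)) := ⟨_, rfl⟩
  have hA0 : 0 ≤ A := by rw [hA]; positivity
  obtain ⟨g, hg⟩ : ∃ g, g = A ^ 2 / 𝓛.d + 1 := ⟨_, rfl⟩
  have hg0 : 0 < g := by rw [hg]; positivity
  obtain ⟨T, hT, hcard⟩ := card_SZ K (θ := 1) one_pos
  have hε4 : 0 < ε / 4 := by linarith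
  obtain ⟨k, hk1, hk⟩ := order_exists 1 (Real.sqrt g) (ε / 4) le_rfl (Real.sqrt_nonneg _) hε4
  rw [Real.sq_sqrt hg0.le] at hk
  obtain ⟨Q, hQ⟩ : ∃ Q : ℝ, Q = (2 * k + 1) * (T * 1 + 1) ^ (2 * k) * 2 ^ Fintype.card (J × ι) + 2 * Cb := ⟨_, rfl⟩
  obtain ⟨N, hN⟩ := exists_nat_ge (Q / (ε / 8))
  obtain ⟨V₁, hV₁⟩ := size_Z 𝓛 (N + 1)
  -- the limit of the main term
  have hcont : ContinuousAt (fun p : ℝ × ℝ => Complex.exp (Complex.I * (p.1 : ℂ)) * Complex.exp ((-((u ^ 2 + p.2) / 2) : ℝ) : ℂ)) (0, 0) := by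
    fun_prop
  obtain ⟨δ, hδ0, hδ⟩ := Metric.continuousAt_iff.1 hcont (ε / 8) (by linarith)
  obtain ⟨B₂, hB₂⟩ : ∃ B₂, B₂ = u ^ 2 * (n ^ 2 * 𝓛.E + (n * 𝓛.E) ^ 2) + 1 := ⟨_, rfl⟩
  have hB₂0 : 0 < B₂ := by rw [hB₂]; positivity
  obtain ⟨B₁, hB₁⟩ : ∃ B₁, B₁ = |u| * (n * 𝓛.E) + 1 := ⟨_, rfl⟩
  have hB₁0 : 0 < B₁ := by rw [hB₁]; positivity
  obtain ⟨V₂, hV₂⟩ := sum_one 𝓛 (δ := δ / (2 * B₂)) (by positivity)
  obtain ⟨V₃, hV₃⟩ := sum_two 𝓛 (δ := δ / (2 * B₁)) (by positivity)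
  obtain ⟨R, hR⟩ : ∃ R, R = A * n + 8 * (A * n) * g / ε + 1 := ⟨_, rfl⟩
  have hR1 : 1 ≤ R := by
    rw [hR]
    have : 0 ≤ A * n + 8 * (A * n) * g / ε := by positivity
    linarith
  refine ⟨6 * k + 1, max (max V₁ V₂) (max V₃ (R ^ 2)), fun Z c hc hV H hH => ?_⟩
  have g1 : V₁ ≤ VV 𝓛 c Z := ((le_max_left _ _).trans (le_max_left _ _)).trans hV
  have g2 : V₂ ≤ VV 𝓛 c Z := ((le_max_right _ _).trans (le_max_left _ _)).trans hV
  have g3 : V₃ ≤ VV 𝓛 c Z := ((le_max_left _ _).trans (le_max_right _ _)).trans hV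
  have g4 : R ^ 2 ≤ VV 𝓛 c Z := ((le_max_right _ _).trans (le_max_right _ _)).trans hV
  have hZN := hV₁ Z c hc g1
  obtain ⟨V, hVd⟩ : ∃ V, V = VV 𝓛 c Z := ⟨_, rfl⟩
  have hsum1 := hV₂ Z c hc g2
  have hsum2 := hV₃ Z c hc g3
  rw [← hVd] at g4 hsum1 hsum2 ⊢
  have hVpos : 0 < V := lt_of_lt_of_le (by positivity) g4
  obtain ⟨W, hW⟩ : ∃ W, W = Real.sqrt V := ⟨_, rfl⟩
  have hW2 : W ^ 2 = V := by rw [hW]; exact Real.sq_sqrt hVpos.le
  have hRW : R ≤ W := by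
    rw [hW]
    exact Real.le_sqrt_of_sq_le g4
  have hW0 : 0 < W := by linarith
  rw [← hW] at hsum2 ⊢
  obtain ⟨s, hs⟩ : ∃ s, s = u / W := ⟨_, rfl⟩
  have hs2 : s ^ 2 * V = u ^ 2 := by
    rw [hs, div_pow, hW2]
    field_simp
  obtain ⟨X, hX⟩ : ∃ X, X = XX 𝓛 c s := ⟨_, rfl⟩
  obtain ⟨b, hb⟩ : ∃ b : HeightOneSpectrum (𝓞 K) → ℝ, b = fun v => A / W * Real.sqrt (rho c v) := ⟨_, rfl⟩
  have hXb : ∀ v t, |X v t| ≤ b v := fun v t => by
    rw [hX, hb]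
    refine (XX_le 𝓛 c s v t).trans (le_of_eq ?_)
    rw [hs, abs_div, abs_of_pos hW0, hA, hn]
    ring
  have hbn : ∀ v, b v ≤ A / W * n := fun v => by
    rw [hb, hn]
    exact mul_le_mul_of_nonneg_left (sqrt_rho_le c hc v) (by positivity)
  have hAW : A / W * n ≤ 1 := by
    rw [div_mul_eq_mul_div, div_le_one hW0]
    have : 0 ≤ 8 * (A * n) * g / ε := by positivity
    linarith
  have hb1 : ∀ v, b v ≤ 1 := fun v => (hbn v).trans hAW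
  have hb0 : ∀ v, 0 ≤ b v := fun v => by rw [hb]; positivity
  have hX0 : ∀ v, av Finset.univ (X v) = 0 := fun v => by rw [hX]; exact XX_mean 𝓛 c s v
  have hbsq : ∑ v ∈ SZ K Z, b v ^ 2 ≤ g := by
    have e : ∀ v, b v ^ 2 = A ^ 2 / V * rho c v := fun v => by
      rw [hb, ← hW2]
      simp only
      rw [mul_pow, Real.sq_sqrt (rho_nonneg c v), div_pow]
    simp only [e]
    rw [← Finset.mul_sum]
    have h1 := rho_le_V 𝓛 c Z
    rw [← hVd] at h1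
    refine (mul_le_mul_of_nonneg_left h1 (by positivity)).trans ?_
    rw [hg]
    have : A ^ 2 / V * (V / 𝓛.d) = A ^ 2 / 𝓛.d := by field_simp
    rw [this]
    linarith
  have hbcube : ∑ v ∈ SZ K Z, b v ^ 3 ≤ ε / 8 := by
    have h1 : ∑ v ∈ SZ K Z, b v ^ 3 ≤ A / W * n * g := by
      calc ∑ v ∈ SZ K Z, b v ^ 3 ≤ ∑ v ∈ SZ K Z, A / W * n * b v ^ 2 := by
            refine Finset.sum_le_sum fun v _ => ?_
            have : b v ^ 3 = b v * b v ^ 2 := by ring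
            rw [this]
            exact mul_le_mul_of_nonneg_right (hbn v) (sq_nonneg _)
        _ = A / W * n * ∑ v ∈ SZ K Z, b v ^ 2 := by rw [Finset.mul_sum]
        _ ≤ _ := mul_le_mul_of_nonneg_left hbsq (by positivity)
    refine h1.trans ?_
    have e : A / W * n * g = (A * n * g) / W := by ring
    rw [e, div_le_iff₀ hW0]
    have h2 : 8 * (A * n) * g / ε ≤ W := by
      have : 0 ≤ A * n := by positivity
      linarith
    rw [div_le_iff₀ hε] at h2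
    linarith
  -- the comparison
  have hZ1 : 1 ≤ Z := by omega
  have h1 := char_close ω X hCb hG zero_le_one (fun v t => (hXb v t).trans (hb1 v)) hT hcard k hZ1 H hH
    (even_model X b (SZ K Z) (fun v _ => hXb v) hX0 hg0 hbsq k hk1)
  rw [← hQ] at h1
  have h2 := char_model X b (SZ K Z) (fun v _ => hXb v) hX0 (fun v _ => hb1 v)
  have h3 := h2.trans hbcube
  have hZpos : (0 : ℝ) < Z := by exact_mod_cast hZ1
  have h4 : Q / Z ≤ ε / 8 := by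
    have h5 : Q / (ε / 8) ≤ Z := hN.trans (by exact_mod_cast (by omega : N ≤ Z))
    rw [div_le_iff₀ (by linarith)] at h5
    rw [div_le_iff₀ hZpos]
    linarith
  -- the main term
  obtain ⟨m, hm⟩ : ∃ m : ℝ, m = s * ∑ v ∈ SZ K Z, av Finset.univ (gg 𝓛 c v) := ⟨_, rfl⟩
  obtain ⟨x, hx⟩ : ∃ x : ℝ, x = ∑ v ∈ SZ K Z, av Finset.univ (fun t => X v t ^ 2) - u ^ 2 := ⟨_, rfl⟩
  have hm1 : |m| < δ := by
    rw [hm, abs_mul, hs, abs_div, abs_of_pos hW0]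
    have h5 : |∑ v ∈ SZ K Z, av Finset.univ (gg 𝓛 c v)| ≤ n * 𝓛.E * (δ / (2 * B₁) * W) := by
      refine (Finset.abs_sum_le_sum_abs _ _).trans ?_
      calc _ ≤ ∑ v ∈ SZ K Z, n * 𝓛.E * (Real.sqrt (rho c v) / nv v) := by
            rw [hn]
            exact Finset.sum_le_sum fun v _ => av_gg_le 𝓛 c v
        _ = n * 𝓛.E * ∑ v ∈ SZ K Z, Real.sqrt (rho c v) / nv v := by rw [Finset.mul_sum]
        _ ≤ _ := mul_le_mul_of_nonneg_left hsum2 (by positivity)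
    have h6 : |u| / W * |∑ v ∈ SZ K Z, av Finset.univ (gg 𝓛 c v)| ≤ |u| / W * (n * 𝓛.E * (δ / (2 * B₁) * W)) :=
      mul_le_mul_of_nonneg_left h5 (by positivity)
    refine h6.trans_lt ?_
    have h7 : |u| / W * (n * 𝓛.E * (δ / (2 * B₁) * W)) = (|u| * (n * 𝓛.E)) * δ / (2 * B₁) := by field_simp
    rw [h7, div_lt_iff₀ (by positivity)]
    have h8 : |u| * (n * 𝓛.E) ≤ B₁ := by rw [hB₁]; linarith
    nlinarith
  have hx1 : |x| < δ := by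
    have h5 := var_close 𝓛 c s Z
    rw [← hVd, hs2, ← hX, ← hx, ← hn] at h5
    refine h5.trans_lt ?_
    have h6 : s ^ 2 * ((n ^ 2 * 𝓛.E + (n * 𝓛.E) ^ 2) * ∑ v ∈ SZ K Z, rho c v / Real.sqrt (nv v)) ≤
        s ^ 2 * ((n ^ 2 * 𝓛.E + (n * 𝓛.E) ^ 2) * (δ / (2 * B₂) * V)) := by gcongr
    refine h6.trans_lt ?_
    have h7 : s ^ 2 * ((n ^ 2 * 𝓛.E + (n * 𝓛.E) ^ 2) * (δ / (2 * B₂) * V)) =
        (s ^ 2 * V) * (n ^ 2 * 𝓛.E + (n * 𝓛.E) ^ 2) * δ / (2 * B₂) := by ring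
    rw [h7, hs2, div_lt_iff₀ (by positivity)]
    have h8 : u ^ 2 * (n ^ 2 * 𝓛.E + (n * 𝓛.E) ^ 2) ≤ B₂ := by rw [hB₂]; linarith
    nlinarith
  have h5 := hδ (x := (m, x)) (by
    rw [Prod.dist_eq, max_lt_iff, Real.dist_eq, Real.dist_eq, sub_zero, sub_zero]
    exact ⟨hm1, hx1⟩)
  rw [dist_eq_norm] at h5
  have e0 : Complex.exp (Complex.I * ((0 : ℝ) : ℂ)) * Complex.exp ((-((u ^ 2 + 0) / 2) : ℝ) : ℂ) = Complex.exp (-((u : ℂ) ^ 2) / 2) := by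
    rw [Complex.ofReal_zero, mul_zero, Complex.exp_zero, one_mul]
    congr 1
    push_cast
    ring
  simp only [e0] at h5
  have e1 : u ^ 2 + x = ∑ v ∈ SZ K Z, av Finset.univ (fun t => X v t ^ 2) := by rw [hx]; ring
  rw [e1] at h5
  have e2 : mean ω H G (fun t => Complex.exp (Complex.I * ((u / W * SS 𝓛 c Z t : ℝ) : ℂ))) =
      Complex.exp (Complex.I * (m : ℂ)) * mean ω H G (fun t => Complex.exp (Complex.I * (SB X (SZ K Z) t : ℂ))) := by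
    rw [← mean_mul]
    congr 1
    funext t
    rw [← Complex.exp_add, ← hs, sum_XX, ← hm, ← hX]
    congr 1
    push_cast
    ring
  rw [e2]
  obtain ⟨a, ha⟩ : ∃ a, a = Complex.exp (Complex.I * (m : ℂ)) := ⟨_, rfl⟩
  have hna : ‖a‖ = 1 := by
    rw [ha, Complex.norm_exp]
    have : (Complex.I * (m : ℂ)).re = 0 := by
      rw [Complex.re_mul_ofReal]
      simp
    rw [this, Real.exp_zero]
  rw [← ha] at h5 ⊢
  obtain ⟨x', hx'⟩ : ∃ x, x = mean ω H G (fun t => Complex.exp (Complex.I * (SB X (SZ K Z) t : ℂ))) := ⟨_, rfl⟩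
  obtain ⟨y, hy⟩ : ∃ y, y = avg (Finset.univ : Finset (TS (SZ K Z) J)) (fun t => Complex.exp (Complex.I * (SM X (SZ K Z) t : ℂ))) := ⟨_, rfl⟩
  obtain ⟨z, hz⟩ : ∃ z, z = Complex.exp ((-((∑ v ∈ SZ K Z, av Finset.univ (fun t => X v t ^ 2)) / 2) : ℝ) : ℂ) := ⟨_, rfl⟩
  rw [← hx', ← hy] at h1
  rw [← hy, ← hz] at h3
  rw [← hz] at h5
  rw [← hx']
  obtain ⟨w, hw⟩ : ∃ w, w = Complex.exp (-((u : ℂ) ^ 2) / 2) := ⟨_, rfl⟩
  rw [← hw] at h5 ⊢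
  have e3 : a * x' - w = a * ((x' - y) + (y - z)) + (a * z - w) := by ring
  rw [e3]
  refine (norm_add_le _ _).trans ?_
  rw [norm_mul, hna, one_mul]
  have h6 := norm_add_le (x' - y) (y - z)
  have h7 : 2 * (2 * (g * Real.exp 1 / (2 * k)) ^ k) ≤ ε / 4 := by
    have : 2 * (2 * (g * Real.exp 1 / (2 * k)) ^ k) = 4 * 1 * (g * Real.exp 1 / (2 * (k : ℝ))) ^ k := by ring
    rw [this]
    exact hk
  linarith

end

end Run7.h876.SW
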