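import Pool.Agent.Run7.h876.SU.KlDefs

/-!
# Weighted sums of the first two characters of the Kloosterman angles: definitions
-/

set_option autoImplicit false

namespace Run7.h876.SW

open NumberField IsDedekindDomain
open Run7.h876.MM (nv kv instFieldKv instFintypeKv SZ)
open Run7.h876.SU (kloosterman klChar)

section
variable {F : Type} [Field F] [NumberField F]

open Classical in
/-- **The weighted sum** `∑ (w_(i,0)(v) U_1(cos θ_v(b_i a)) + w_(i,1)(v) U_2(cos θ_v(b_i a)))` over the places `Nv ≤ Z` which do not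
divide `2` and over `i`. -/
noncomputable def jointSum {r : ℕ} (ψ : ∀ v : HeightOneSpectrum (𝓞 F), AddChar (kv v) ℂ) (b : Fin r → 𝓞 F)
    (w : Fin r × Fin 2 → HeightOneSpectrum (𝓞 F) → ℝ) (Z : ℕ) (a : 𝓞 F) : ℝ :=
  ∑ v ∈ SZ F Z, if (2 : 𝓞 F) ∈ v.asIdeal then 0 else
    ∑ i, (w (i, 0) v * klChar 1 (ψ v) (Ideal.Quotient.mk v.asIdeal (b i * a)) +
      w (i, 1) v * klChar 2 (ψ v) (Ideal.Quotient.mk v.asIdeal (b i * a)))

/-- The variance `∑ ∑ (w_(i,0)(v) ^ 2 + w_(i,1)(v) ^ 2)`, over all places with `Nv ≤ Z`. -/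
noncomputable def jointVar {r : ℕ} (w : Fin r × Fin 2 → HeightOneSpectrum (𝓞 F) → ℝ) (Z : ℕ) : ℝ :=
  ∑ v ∈ SZ F Z, ∑ i, (w (i, 0) v ^ 2 + w (i, 1) v ^ 2)

end

end Run7.h876.SW
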