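import Pool.Agent.Run7.h876.SU.Kl3
import Pool.Agent.Run7.h876.SW.Abs

/-!
# The joint local functions of the first two characters
-/

set_option autoImplicit false
set_option linter.unusedSectionVars false

namespace Run7.h876.SW

open NumberField IsDedekindDomain Finset
open Run7.h876.MM (nv kv two_le_nv nv_pos avg norm_avg_le SZ mem_SZ card_SZ card_kv ring_char_two card_iota_pos instFieldKv instFintypeKv instDecKv)
open Run7.h876.EN Run7.h876.PW Run7.h876.MN
open Run7.h876.SU (kloosterman kf kf₂ RR gsq kl_sq planch conj_kl kl_re RR_zero exists_good kl_first kl_second sum_unit exists_kl exists_kl₂ kl_le)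
open scoped ComplexConjugate

section
variable {k : Type} [Field k] [Fintype k] [DecidableEq k] {ψ : AddChar k ℂ}

/-- the coefficients -/
noncomputable def gone (ψ : AddChar k ℂ) (s : k) : ℂ := if s = 0 then 0 else ψ s⁻¹

theorem kl_gone (c : k) : kloosterman ψ c = ∑ s, gone ψ s * ψ (c * s) := by
  have e0 : kloosterman ψ c = ∑ x : k, if x = 0 then 0 else ψ (c * x + x⁻¹) := by
    unfold kloosterman
    exact Finset.sum_congr rfl fun x _ => by congr
  rw [e0]
  refine Finset.sum_congr rfl fun s _ => ?_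
  unfold gone
  by_cases h : s = 0
  · simp [h]
  · rw [if_neg h, if_neg h, AddChar.map_add_eq_mul, mul_comm]

theorem card_root (m : k) : (Finset.univ.filter fun u : k => (¬ (u = 0 ∨ u = 1)) ∧ (u * (1 - u))⁻¹ = m).card ≤ 2 := by
  by_cases h : ∃ u₀ : k, (¬ (u₀ = 0 ∨ u₀ = 1)) ∧ (u₀ * (1 - u₀))⁻¹ = m
  · obtain ⟨u₀, h0, h1⟩ := h
    refine (Finset.card_le_card (t := {u₀, 1 - u₀}) fun u hu => ?_).trans Finset.card_le_two
    obtain ⟨-, h2, h3⟩ := Finset.mem_filter.1 hu
    rw [← h1] at h3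
    have h4 := inv_injective h3
    have : (u - u₀) * (1 - u - u₀) = 0 := by linear_combination h4
    rcases mul_eq_zero.1 this with h | h
    · rw [sub_eq_zero.1 h]; simp
    · have : u = 1 - u₀ := by linear_combination -h
      rw [this]; simp
  · rw [Finset.filter_false_of_mem fun u _ hu => h ⟨u, hu⟩]
    simp

theorem sum_RR_one (hψ : ψ.IsPrimitive) (m : k) : ∑ z, RR ψ z * ψ (-(m * z)) =
    Fintype.card k * (((Finset.univ.filter fun u : k => (¬ (u = 0 ∨ u = 1)) ∧ (u * (1 - u))⁻¹ = m).card : ℕ) : ℂ) := by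
  have e1 : ∀ z, RR ψ z * ψ (-(m * z)) = ∑ u : k, (if ¬ (u = 0 ∨ u = 1) then ψ (z * ((u * (1 - u))⁻¹ - m)) else 0) := by
    intro z
    unfold RR
    rw [Finset.sum_mul]
    refine Finset.sum_congr rfl fun u _ => ?_
    by_cases hu : u = 0 ∨ u = 1
    · simp [hu]
    · rw [if_neg hu, if_pos hu, ← AddChar.map_add_eq_mul]
      congr 1
      ring
  simp only [e1]
  rw [Finset.sum_comm]
  have e2 : ∀ u : k, ∑ z, (if ¬ (u = 0 ∨ u = 1) then ψ (z * ((u * (1 - u))⁻¹ - m)) else 0) =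
      if (¬ (u = 0 ∨ u = 1)) ∧ (u * (1 - u))⁻¹ = m then (Fintype.card k : ℂ) else 0 := by
    intro u
    by_cases hu : u = 0 ∨ u = 1
    · simp [hu]
    · simp only [if_pos hu]
      rw [AddChar.sum_mulShift _ hψ]
      by_cases h : (u * (1 - u))⁻¹ = m
      · rw [if_pos (sub_eq_zero.2 h), if_pos ⟨hu, h⟩]
      · rw [if_neg fun h' => h (sub_eq_zero.1 h'), if_neg fun h' => h h'.2, Nat.cast_zero]
  rw [Finset.sum_congr rfl fun u _ => e2 u, ← Finset.sum_filter, Finset.sum_const, nsmul_eq_mul, mul_comm]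

/-- **The third moments.** -/
theorem kl_third (hψ : ψ.IsPrimitive) {b b' : k} (hb : b ≠ 0) (hb' : b' ≠ 0) :
    ‖∑ t : k, kloosterman ψ (b * t) ^ 2 * kloosterman ψ (b' * t)‖ ≤ 3 * (Fintype.card k : ℝ) ^ 2 := by
  have e0 : ∀ t, kloosterman ψ (b * t) ^ 2 * kloosterman ψ (b' * t) =
      (∑ s, gsq ψ s * ψ (b * t * s)) * conj (∑ s, gone ψ s * ψ (b' * t * s)) := by
    intro t
    rw [← kl_sq, ← kl_gone, conj_kl]
  simp only [e0]
  rw [planch hψ _ _ hb', ← Finset.add_sum_erase _ _ (Finset.mem_univ (0 : k))]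
  have h0 : gsq ψ 0 * conj (gone ψ (b * 0 / b')) = 0 := by
    have : gone ψ (0 : k) = 0 := if_pos rfl
    rw [mul_zero, zero_div, this, map_zero, mul_zero]
  rw [h0, zero_add]
  have h1 : ∑ s ∈ Finset.univ.erase (0 : k), gsq ψ s * conj (gone ψ (b * s / b')) =
      ∑ z ∈ Finset.univ.erase (0 : k), RR ψ z * ψ (-(b' / b * z)) := by
    refine Finset.sum_bij' (fun s _ => s⁻¹) (fun s _ => s⁻¹) (fun s hs => ?_) (fun s hs => ?_) (fun s _ => inv_inv s)
      (fun s _ => inv_inv s) (fun s hs => ?_)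
    · exact Finset.mem_erase.2 ⟨inv_ne_zero (Finset.ne_of_mem_erase hs), Finset.mem_univ _⟩
    · exact Finset.mem_erase.2 ⟨inv_ne_zero (Finset.ne_of_mem_erase hs), Finset.mem_univ _⟩
    · have hs0 : s ≠ 0 := Finset.ne_of_mem_erase hs
      have hs1 : b * s / b' ≠ 0 := div_ne_zero (mul_ne_zero hb hs0) hb'
      unfold gsq gone
      rw [if_neg hs0, if_neg hs1, inv_div, ← AddChar.map_neg_eq_conj]
      congr 3
      field_simp
  rw [h1]
  have h2 := Finset.add_sum_erase Finset.univ (fun z => RR ψ z * ψ (-(b' / b * z))) (Finset.mem_univ (0 : k))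
  rw [sum_RR_one hψ] at h2
  have h3 : RR ψ 0 * ψ (-(b' / b * 0)) = (Fintype.card k : ℂ) - 2 := by
    rw [mul_zero, neg_zero, AddChar.map_zero_eq_one, mul_one, RR_zero]
  simp only [h3] at h2
  obtain ⟨m, hm⟩ : ∃ m, m = (Finset.univ.filter fun u : k => (¬ (u = 0 ∨ u = 1)) ∧ (u * (1 - u))⁻¹ = b' / b).card := ⟨_, rfl⟩
  have hm2 : m ≤ 2 := by rw [hm]; exact card_root _
  rw [← hm] at h2
  obtain ⟨X, hX⟩ : ∃ X, X = ∑ z ∈ Finset.univ.erase (0 : k), RR ψ z * ψ (-(b' / b * z)) := ⟨_, rfl⟩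
  rw [← hX] at h2 ⊢
  have hX1 : X = ((((Fintype.card k : ℕ) : ℝ) * m - ((Fintype.card k : ℕ) : ℝ) + 2 : ℝ) : ℂ) := by
    push_cast
    linear_combination h2
  rw [hX1, norm_mul, Complex.norm_natCast, Complex.norm_real, Real.norm_eq_abs, pow_two, mul_comm (3 : ℝ), mul_assoc]
  refine mul_le_mul_of_nonneg_left ?_ (Nat.cast_nonneg _)
  have hq2 : (2 : ℝ) ≤ Fintype.card k := by
    exact_mod_cast Fintype.one_lt_card (α := k)
  have hm0 : (0 : ℝ) ≤ m := Nat.cast_nonneg _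
  have hm3 : (m : ℝ) ≤ 2 := by exact_mod_cast hm2
  rw [abs_le]
  constructor <;> nlinarith

end

section
variable {F : Type} [Field F] [NumberField F] {r : ℕ} (ψ : ∀ v : HeightOneSpectrum (𝓞 F), AddChar (kv v) ℂ) (b : Fin r → 𝓞 F)

/-- the local functions: `U_1` and `U_2` -/
noncomputable def kfj (p : Fin r × Fin 2) (v : HeightOneSpectrum (𝓞 F)) (t : Unit → kv v) : ℝ :=
  if p.2 = 0 then kf ψ b p.1 v t else kf₂ ψ b p.1 v t

variable {ψ b} in
theorem cross (hψ : ∀ v, (ψ v).IsPrimitive) (hb : Function.Injective b) (hb0 : ∀ i, b i ≠ 0) :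
    ∃ E : ℝ, 0 ≤ E ∧ ∀ (i j : Fin r) (v : HeightOneSpectrum (𝓞 F)),
      |av Finset.univ (fun t => kf ψ b i v t * kf₂ ψ b j v t)| ≤ E / Real.sqrt (nv v) := by
  classical
  obtain ⟨S, hS, hgood⟩ := exists_good hb hb0
  obtain ⟨𝓛₁, h1f, -⟩ := exists_kl ψ b hψ hb hb0
  obtain ⟨𝓛₂, h2f, -⟩ := exists_kl₂ ψ b hψ hb hb0
  obtain ⟨B, hB⟩ : ∃ B : ℝ, B = ∑ v ∈ hS.toFinset, Real.sqrt (nv v : ℝ) := ⟨_, rfl⟩
  have hB0 : 0 ≤ B := by rw [hB]; exact Finset.sum_nonneg fun v _ => by positivity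
  have hBv : ∀ v ∈ S, Real.sqrt (nv v : ℝ) ≤ B := fun v hv => by
    rw [hB]
    exact Finset.single_le_sum (f := fun v => Real.sqrt (nv v : ℝ)) (fun v _ => by positivity) (hS.mem_toFinset.2 hv)
  have hM1 := 𝓛₁.M_nonneg
  have hM2 := 𝓛₂.M_nonneg
  have hav : ∀ (v : HeightOneSpectrum (𝓞 F)) (g : (Unit → kv v) → ℝ) (c : ℝ), (∀ t, |g t| ≤ c) → |av Finset.univ g| ≤ c := by
    intro v g c hg
    rw [abs_le]
    constructor
    · rw [← av_const (Ω := Unit → kv v) (-c)]
      exact av_mono _ fun t => (abs_le.1 (hg t)).1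
    · exact av_le_const fun t => (abs_le.1 (hg t)).2
  have hre : ∀ (v : HeightOneSpectrum (𝓞 F)) (c : kv v), (((kloosterman (ψ v) c).re : ℝ) : ℂ) = kloosterman (ψ v) c :=
    fun v c => kl_re (ψ v) c
  refine ⟨3 + 𝓛₁.M * 𝓛₂.M * B, by positivity, fun i j v => ?_⟩
  have hq := nv_pos v
  have hs : 0 < Real.sqrt (nv v) := Real.sqrt_pos.2 hq
  by_cases hv : v ∈ S
  · have h1 : |av Finset.univ (fun t => kf ψ b i v t * kf₂ ψ b j v t)| ≤ 𝓛₁.M * 𝓛₂.M := hav v _ _ fun t => by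
      rw [abs_mul]
      have g1 := 𝓛₁.f_le i v t
      have g2 := 𝓛₂.f_le j v t
      rw [h1f] at g1
      rw [h2f] at g2
      exact mul_le_mul g1 g2 (abs_nonneg _) hM1
    refine h1.trans ?_
    rw [le_div_iff₀ hs]
    have := mul_le_mul_of_nonneg_left (hBv v hv) (by positivity : 0 ≤ 𝓛₁.M * 𝓛₂.M)
    linarith
  · obtain ⟨h2, h3, -⟩ := hgood v hv
    obtain ⟨x, hx⟩ : ∃ x : kv v → ℝ, x = fun s => (kloosterman (ψ v) (Ideal.Quotient.mk v.asIdeal (b i) * s)).re := ⟨_, rfl⟩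
    obtain ⟨y, hy⟩ : ∃ y : kv v → ℝ, y = fun s => (kloosterman (ψ v) (Ideal.Quotient.mk v.asIdeal (b j) * s)).re := ⟨_, rfl⟩
    obtain ⟨g, hg⟩ : ∃ g : kv v → ℝ, g = fun s => (y s ^ 2 * x s / nv v - x s) / Real.sqrt (nv v) := ⟨_, rfl⟩
    have e : (fun t => kf ψ b i v t * kf₂ ψ b j v t) = fun t => g (t ()) := by
      funext t
      unfold kf kf₂
      rw [if_pos h2, if_pos h2, hg, hx, hy]
      simp only
      ring
    have hx0 : ∑ s, x s = 0 := by
      rw [hx, ← Complex.re_sum, kl_first (hψ v) (h3 i), Complex.zero_re]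
    have hthird : |∑ s, y s ^ 2 * x s| ≤ 3 * (nv v : ℝ) ^ 2 := by
      have h4 := kl_third (hψ v) (h3 j) (h3 i)
      rw [card_kv] at h4
      have h5 : ∑ t : kv v, kloosterman (ψ v) (Ideal.Quotient.mk v.asIdeal (b j) * t) ^ 2 *
          kloosterman (ψ v) (Ideal.Quotient.mk v.asIdeal (b i) * t) = ((∑ s, y s ^ 2 * x s : ℝ) : ℂ) := by
        rw [Complex.ofReal_sum, hx, hy]
        simp only [Complex.ofReal_mul, Complex.ofReal_pow, hre]
      rw [h5, Complex.norm_real, Real.norm_eq_abs] at h4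
      exact h4
    have hgs : ∑ s, g s = (∑ s, y s ^ 2 * x s) / nv v / Real.sqrt (nv v) := by
      rw [hg, ← Finset.sum_div, Finset.sum_sub_distrib, hx0, sub_zero, ← Finset.sum_div]
    rw [e, sum_unit g, hgs, card_kv, abs_div, abs_div, abs_div, abs_of_pos hs, abs_of_pos hq]
    rw [div_le_iff₀ hq, div_le_iff₀ hs, div_le_iff₀ hq]
    have e3 : (3 + 𝓛₁.M * 𝓛₂.M * B) / Real.sqrt (nv v) * nv v * Real.sqrt (nv v) * nv v = (3 + 𝓛₁.M * 𝓛₂.M * B) * (nv v : ℝ) ^ 2 := by
      field_simp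
    rw [e3]
    refine hthird.trans (mul_le_mul_of_nonneg_right ?_ (by positivity))
    have : 0 ≤ 𝓛₁.M * 𝓛₂.M * B := by positivity
    linarith

theorem exists_klj (hψ : ∀ v, (ψ v).IsPrimitive) (hb : Function.Injective b) (hb0 : ∀ i, b i ≠ 0) :
    ∃ 𝓛 : Loc F Unit (Fin r × Fin 2), 𝓛.f = kfj ψ b ∧ 𝓛.D = fun _ => 1 := by
  classical
  obtain ⟨𝓛₁, h1f, h1D⟩ := exists_kl ψ b hψ hb hb0
  obtain ⟨𝓛₂, h2f, h2D⟩ := exists_kl₂ ψ b hψ hb hb0
  obtain ⟨E, hE0, hE⟩ := cross hψ hb hb0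
  have hM1 := 𝓛₁.M_nonneg
  have hM2 := 𝓛₂.M_nonneg
  have hE1 := 𝓛₁.E_nonneg
  have hE2 := 𝓛₂.E_nonneg
  have hsq : ∀ v : HeightOneSpectrum (𝓞 F), ∀ x : ℝ, 0 ≤ x → x / nv v ≤ x / Real.sqrt (nv v) := by
    intro v x hx
    have hq1 : (1 : ℝ) ≤ nv v := by exact_mod_cast (by have := two_le_nv v; omega : 1 ≤ nv v)
    have hs1 : (1 : ℝ) ≤ Real.sqrt (nv v) := Real.one_le_sqrt.2 hq1
    refine div_le_div_of_nonneg_left hx (by linarith) ?_
    rw [Real.sqrt_le_left (by linarith)]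
    nlinarith
  refine ⟨{ f := kfj ψ b, D := fun _ => 1, M := 𝓛₁.M + 𝓛₂.M, E := 𝓛₁.E + 𝓛₂.E + E, d := 1, d_pos := one_pos, d_le := fun _ => le_rfl,
            M_nonneg := by positivity, E_nonneg := by positivity,
            f_le := fun p v t => ?_, mean_le := fun p v => ?_, cov_le := fun p p' v => ?_ }, rfl, rfl⟩
  · unfold kfj
    split_ifs with h
    · have := 𝓛₁.f_le p.1 v t
      rw [h1f] at this
      linarith
    · have := 𝓛₂.f_le p.1 v t
      rw [h2f] at this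
      linarith
  · have hq := nv_pos v
    rcases p with ⟨i, e⟩
    by_cases h : e = 0
    · have h0 : kfj ψ b (i, e) v = kf ψ b i v := by
        funext t
        unfold kfj
        rw [if_pos h]
      have h1 := 𝓛₁.mean_le i v
      rw [h1f] at h1
      rw [h0]
      refine h1.trans (div_le_div_of_nonneg_right ?_ hq.le)
      linarith
    · have h0 : kfj ψ b (i, e) v = kf₂ ψ b i v := by
        funext t
        unfold kfj
        rw [if_neg h]
      have h1 := 𝓛₂.mean_le i v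
      rw [h2f] at h1
      rw [h0]
      refine h1.trans (div_le_div_of_nonneg_right ?_ hq.le)
      linarith
  · have hq := nv_pos v
    have hs : 0 < Real.sqrt (nv v) := Real.sqrt_pos.2 hq
    rcases p with ⟨i, e⟩
    rcases p' with ⟨j, e'⟩
    have ha : ∀ {i : Fin r} {e : Fin 2}, e = 0 → ∀ t, kfj ψ b (i, e) v t = kf ψ b i v t := by
      intro i e h t
      unfold kfj
      rw [if_pos h]
    have hb2 : ∀ {i : Fin r} {e : Fin 2}, e ≠ 0 → ∀ t, kfj ψ b (i, e) v t = kf₂ ψ b i v t := by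
      intro i e h t
      unfold kfj
      rw [if_neg h]
    by_cases h : e = 0
    · by_cases h' : e' = 0
      · have h1 := 𝓛₁.cov_le i j v
        rw [h1f, h1D] at h1
        simp only [ha h, ha h']
        have h6 : ((i, e) = (j, e')) ↔ i = j := by rw [h, h']; simp
        have h7 : (if (i, e) = (j, e') then (1 : ℝ) else 0) = if i = j then 1 else 0 := by
          by_cases hij : i = j
          · rw [if_pos hij, if_pos (h6.2 hij)]
          · rw [if_neg hij, if_neg fun hh => hij (h6.1 hh)]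
        rw [h7]
        refine (h1.trans (hsq v _ hE1)).trans (div_le_div_of_nonneg_right ?_ hs.le)
        linarith
      · have h1 := hE i j v
        simp only [ha h, hb2 h']
        have h7 : (if (i, e) = (j, e') then (1 : ℝ) else 0) = 0 := if_neg fun hh => h' (by rw [← (Prod.mk.inj hh).2]; exact h)
        rw [h7, sub_zero]
        refine h1.trans (div_le_div_of_nonneg_right ?_ hs.le)
        linarith
    · by_cases h' : e' = 0
      · have h1 := hE j i v
        simp only [hb2 h, ha h']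
        have h7 : (if (i, e) = (j, e') then (1 : ℝ) else 0) = 0 := if_neg fun hh => h (by rw [(Prod.mk.inj hh).2]; exact h')
        rw [h7, sub_zero]
        simp only [mul_comm (kf₂ ψ b i v _)]
        refine h1.trans (div_le_div_of_nonneg_right ?_ hs.le)
        linarith
      · have h1 := 𝓛₂.cov_le i j v
        rw [h2f, h2D] at h1
        simp only [hb2 h, hb2 h']
        have he : e = e' := by
          have := e.isLt
          have := e'.isLt
          have h8 : (e : ℕ) ≠ 0 := fun hh => h (Fin.ext hh)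
          have h9 : (e' : ℕ) ≠ 0 := fun hh => h' (Fin.ext hh)
          exact Fin.ext (by omega)
        have h6 : ((i, e) = (j, e')) ↔ i = j := by rw [he]; simp
        have h7 : (if (i, e) = (j, e') then (1 : ℝ) else 0) = if i = j then 1 else 0 := by
          by_cases hij : i = j
          · rw [if_pos hij, if_pos (h6.2 hij)]
          · rw [if_neg hij, if_neg fun hh => hij (h6.1 hh)]
        rw [h7]
        refine (h1.trans (hsq v _ hE2)).trans (div_le_div_of_nonneg_right ?_ hs.le)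
        linarith

end

end Run7.h876.SW
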