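import Pool.Agent.Run7.h876.SU.KlFin
import Pool.Agent.Run7.h876.SW.Defs
import Pool.Agent.Run7.h876.SW.Kl
import Pool.Agent.Run7.h876.SW.Law
import Pool.Agent.Run7.h876.SW.Tail

/-!
# Weighted sums of the first two characters of the Kloosterman angles: the normal law
-/

set_option autoImplicit false
set_option linter.unusedSectionVars false

namespace Run7.h876.SW

open NumberField IsDedekindDomain Finset
open Run7.h876.MM (nv kv two_le_nv nv_pos avg norm_avg_le SZ mem_SZ card_SZ card_kv ring_char_two card_iota_pos instFieldKv instFintypeKv instDecKv)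
open Run7.h876.EN Run7.h876.PW Run7.h876.MN
open Run7.h876.SU (kloosterman klChar kf kf₂ kf_eq kf₂_eq two_iff')
open Run7.h9.BS (prop Phi)

section
variable {F : Type} [Field F] [NumberField F] {r : ℕ} {ψ : ∀ v : HeightOneSpectrum (𝓞 F), AddChar (kv v) ℂ} {b : Fin r → 𝓞 F}

theorem SS_kl {𝓛 : Loc F Unit (Fin r × Fin 2)} (hf : 𝓛.f = kfj ψ b) (w : Fin r × Fin 2 → HeightOneSpectrum (𝓞 F) → ℝ) (Z : ℕ)
    (t : Unit → 𝓞 F) : SS 𝓛 w Z t = jointSum ψ b w Z (t ()) := by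
  classical
  unfold SS jointSum gg
  refine Finset.sum_congr rfl fun v _ => ?_
  rw [hf, Fintype.sum_prod_type]
  by_cases h2 : ringChar (kv v) = 2
  · rw [if_pos ((two_iff' v).2 h2)]
    refine Finset.sum_eq_zero fun i _ => Finset.sum_eq_zero fun e _ => ?_
    unfold kfj kf kf₂
    rw [if_neg (not_not.2 h2), if_neg (not_not.2 h2)]
    simp
  · rw [if_neg fun h => h2 ((two_iff' v).1 h)]
    refine Finset.sum_congr rfl fun i _ => ?_
    rw [Fin.sum_univ_two]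
    have e0 : kfj ψ b (i, 0) v (rd v t) = kf ψ b i v (rd v t) := by
      unfold kfj
      rw [if_pos rfl]
    have e1 : kfj ψ b (i, 1) v (rd v t) = kf₂ ψ b i v (rd v t) := by
      unfold kfj
      rw [if_neg (by norm_num)]
    rw [e0, e1, kf_eq h2, kf₂_eq h2]
    unfold rd
    rw [map_mul]

theorem VV_kl {𝓛 : Loc F Unit (Fin r × Fin 2)} (hD : 𝓛.D = fun _ => 1) (w : Fin r × Fin 2 → HeightOneSpectrum (𝓞 F) → ℝ) (Z : ℕ) :
    VV 𝓛 w Z = jointVar w Z := by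
  unfold VV jointVar
  refine Finset.sum_congr rfl fun v _ => ?_
  rw [Fintype.sum_prod_type]
  refine Finset.sum_congr rfl fun i _ => ?_
  rw [Fin.sum_univ_two, hD, one_mul, one_mul]

variable {ι : Type} [Fintype ι] [DecidableEq ι] (ω : Module.Basis ι ℤ (𝓞 F))

theorem thin_univ : Thin ω (Set.univ : Set (Unit → 𝓞 F)) 0 := by
  unfold Thin
  intro H M _
  simp

/-- **The normal law.** -/
theorem kl_clt (hψ : ∀ v, (ψ v).IsPrimitive) (hb : Function.Injective b) (hb0 : ∀ i, b i ≠ 0)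
    (a : ℝ) {ε : ℝ} (hε : 0 < ε) :
    ∃ C : ℕ, ∃ V₀ : ℝ, ∀ (Z : ℕ) (w : Fin r × Fin 2 → HeightOneSpectrum (𝓞 F) → ℝ), (∀ p v, |w p v| ≤ 1) → V₀ ≤ jointVar w Z →
      ∀ H : Unit → ℕ, (∀ j, Z ^ C ≤ H j) →
      |prop ω H Set.univ (fun t => jointSum ψ b w Z (t ()) ≤ a * Real.sqrt (jointVar w Z)) - Phi a| ≤ ε := by
  obtain ⟨𝓛, hf, hD⟩ := exists_klj ψ b hψ hb hb0
  have h := clt 𝓛 ω (Cb := 0) le_rfl (thin_univ ω) a hε
  simp only [SS_kl hf, VV_kl hD] at h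
  exact h

/-- **Large values.** -/
theorem kl_tail (hψ : ∀ v, (ψ v).IsPrimitive) (hb : Function.Injective b) (hb0 : ∀ i, b i ≠ 0) :
    ∃ A : ℝ, 0 < A ∧ ∃ V₀ : ℝ,
    ∀ (Z : ℕ) (w : Fin r × Fin 2 → HeightOneSpectrum (𝓞 F) → ℝ), (∀ p v, |w p v| ≤ 1) → V₀ ≤ jointVar w Z → ∀ y : ℝ, 0 ≤ y →
      ∀ H : Unit → ℕ, (∀ j, (Z : ℝ) ^ (A * (1 + y ^ 2)) ≤ H j) →
      prop ω H Set.univ (fun t => y * Real.sqrt (jointVar w Z) ≤ |jointSum ψ b w Z (t ())|) ≤ A * Real.exp (-(y ^ 2 / A)) := by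
  obtain ⟨𝓛, hf, hD⟩ := exists_klj ψ b hψ hb hb0
  have h := tail 𝓛 ω (thin_univ ω)
  simp only [SS_kl hf, VV_kl hD] at h
  exact h

end

end Run7.h876.SW
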